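import Pool.Agent.N353.PT.Stm

/-!
# Project PT, task DIST (helper221 for helper353): distance function and shortest path
-/

set_option autoImplicit false

open Finset
open scoped Classical

namespace Pool.Agent.N221.PT

open Pool.Agent.N353.PT

/-- `u` is the end of a walk of length `n` in `U` from `S0` -/
def W {V : Type} (T : V → V → Prop) (U S0 : Finset V) : ℕ → V → Prop
  | 0, u => u ∈ S0
  | n + 1, v => v ∈ U ∧ ∃ u ∈ U, W T U S0 n u ∧ T u v

theorem exists_W {V : Type} (T : V → V → Prop) (U S0 : Finset V) (hc : Conn T 1 U)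
    (h0 : S0 ⊆ U) (hn : S0.Nonempty) : ∀ u ∈ U, ∃ n, W T U S0 n u := by
  intro u hu
  obtain ⟨s, hs⟩ := hn
  have h1 := hc ∅ (by simp) s (by rw [Finset.sdiff_empty]; exact h0 hs) u
    (by rw [Finset.sdiff_empty]; exact hu)
  rw [Finset.sdiff_empty] at h1
  unfold Reach at h1
  clear hu
  induction h1 with
  | refl => exact ⟨0, hs⟩
  | tail _ h2 ih =>
    obtain ⟨n, hn⟩ := ih
    exact ⟨n + 1, h2.2.1, _, h2.1, hn, h2.2.2⟩

theorem t_DIST : S_DIST := by
  intro V _ T U S0 S1 hc h0 h1 hn0 hn1 hdis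
  have hex := exists_W T U S0 hc h0 hn0
  set d : V → ℕ := fun u => if h : ∃ n, W T U S0 n u then Nat.find h else 0 with hd
  have hdf : ∀ u (h : ∃ n, W T U S0 n u), d u = Nat.find h := fun u h => dif_pos h
  have hWd : ∀ u ∈ U, W T U S0 (d u) u := by
    intro u hu
    rw [hdf u (hex u hu)]
    exact Nat.find_spec (hex u hu)
  have hle : ∀ u n, W T U S0 n u → d u ≤ n := by
    intro u n h
    rw [hdf u ⟨n, h⟩]
    exact Nat.find_min' _ h
  have d0 : ∀ u ∈ U, (d u = 0 ↔ u ∈ S0) := by
    intro u hu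
    constructor
    · intro h
      have := hWd u hu
      rw [h] at this
      exact this
    · intro h
      exact Nat.le_zero.1 (hle u 0 h)
  have d1 : ∀ u ∈ U, ∀ v ∈ U, T u v → d v ≤ d u + 1 := by
    intro u hu v hv huv
    exact hle v (d u + 1) ⟨hv, u, hu, hWd u hu, huv⟩
  have pred : ∀ n, ∀ u ∈ U, d u = n + 1 → ∃ u' ∈ U, T u' u ∧ d u' = n := by
    intro n u hu hdu
    have h := hWd u hu
    rw [hdu] at h
    obtain ⟨_, u', hu', hw, ht⟩ := h
    refine ⟨u', hu', ht, ?_⟩
    have h2 := hle u' n hw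
    have h3 := d1 u' hu' u hu ht
    omega
  have path : ∀ n, ∀ u ∈ U, d u = n → ∃ p : ℕ → V, p n = u ∧
      (∀ s ≤ n, p s ∈ U ∧ d (p s) = s) ∧ ∀ s < n, T (p s) (p (s + 1)) := by
    intro n
    induction n with
    | zero =>
      intro u hu hdu
      refine ⟨fun _ => u, rfl, fun s hs => ?_, fun s hs => absurd hs (Nat.not_lt_zero s)⟩
      rw [Nat.le_zero.1 hs]
      exact ⟨hu, hdu⟩
    | succ n ih =>
      intro u hu hdu
      obtain ⟨u', hu', ht, hdu'⟩ := pred n u hu hdu
      obtain ⟨p, hp, hps, hpt⟩ := ih u' hu' hdu'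
      refine ⟨Function.update p (n + 1) u, Function.update_self _ _ _, fun s hs => ?_,
        fun s hs => ?_⟩
      · by_cases h : s = n + 1
        · rw [h, Function.update_self]
          exact ⟨hu, hdu⟩
        · rw [Function.update_of_ne h]
          exact hps s (by omega)
      · rw [Function.update_of_ne (show s ≠ n + 1 by omega)]
        by_cases h : s = n
        · rw [h, Function.update_self, hp]
          exact ht
        · rw [Function.update_of_ne (show s + 1 ≠ n + 1 by omega)]
          exact hpt s (by omega)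
  obtain ⟨e, he, hmin⟩ := Finset.exists_min_image S1 d hn1
  obtain ⟨p, hp, hps, hpt⟩ := path (d e) e (h1 he) rfl
  refine ⟨d, d e, p, ⟨d0, d1, fun s hs => (hps s hs).1, fun s hs => (hps s hs).2, hpt, ?_, ?_, ?_⟩⟩
  · rcases Nat.eq_zero_or_pos (d e) with h | h
    · exact absurd he (Finset.disjoint_left.1 hdis ((d0 e (h1 he)).1 h))
    · exact h
  · rw [hp]; exact he
  · intro s hs h
    have h2 := hmin (p s) h
    rw [(hps s hs.le).2] at h2
    omega

end Pool.Agent.N221.PT
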